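import Pool.Agent.J4.H77.BD.Order

set_option autoImplicit false

/-! Beck–Fiala with the edge boundary in a connected graph. -/

namespace Pool.Agent.J4.H77.BD

open Finset

variable {V : Type} [DecidableEq V]

/-- the number of consecutive members of the list which are separated by `S` -/
def sep (S : Finset V) : List V → ℕ
  | [] => 0
  | [_] => 0
  | a :: b :: l => (if (a ∈ S ↔ b ∈ S) then 0 else 1) + sep S (b :: l)

theorem sep_eq (S : Finset V) (d : V) : ∀ l : List V, sep S l =
    ∑ i ∈ range (l.length - 1), if (l.getD i d ∈ S ↔ l.getD (i + 1) d ∈ S) then 0 else 1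
  | [] => by simp [sep]
  | [a] => by simp [sep]
  | a :: b :: l => by
    have ih := sep_eq S d (b :: l)
    rw [sep, ih]
    have e : (a :: b :: l).length - 1 = ((b :: l).length - 1) + 1 := by simp
    rw [e, Finset.sum_range_succ']
    simp only [List.getD_cons_succ, List.getD_cons_zero]
    ring

theorem sep_insert (S : Finset V) (u v : V) (l2 : List V) : ∀ l1 : List V,
    sep S (l1 ++ u :: v :: l2) ≤ sep S (l1 ++ u :: l2) + (if (u ∈ S ↔ v ∈ S) then 0 else 2)
  | [] => by
    cases l2 with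
    | nil =>
      simp only [List.nil_append, sep]
      split_ifs <;> omega
    | cons w l =>
      simp only [List.nil_append, sep]
      by_cases a : u ∈ S <;> by_cases b : v ∈ S <;> by_cases c : w ∈ S <;>
        simp [a, b, c] <;> omega
  | [x] => by
    have ih := sep_insert S u v l2 []
    simp only [List.nil_append, List.cons_append, sep] at ih ⊢
    omega
  | x :: y :: l1 => by
    have ih := sep_insert S u v l2 (y :: l1)
    simp only [List.cons_append, sep] at ih ⊢
    omega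

/-- the number of the edges inside `A` which are cut by `S` -/
noncomputable def bd (G : SimpleGraph V) (A S : Finset V) : ℕ :=
  {p : V × V | p.1 ∈ A ∧ p.2 ∈ A ∧ p.1 ∈ S ∧ p.2 ∉ S ∧ G.Adj p.1 p.2}.ncard

omit [DecidableEq V] in
theorem bd_finite (G : SimpleGraph V) (A S : Finset V) :
    {p : V × V | p.1 ∈ A ∧ p.2 ∈ A ∧ p.1 ∈ S ∧ p.2 ∉ S ∧ G.Adj p.1 p.2}.Finite := by
  refine Set.Finite.subset (A ×ˢ A).finite_toSet ?_
  rintro ⟨a, b⟩ h
  exact Finset.mem_coe.mpr (Finset.mem_product.mpr ⟨h.1, h.2.1⟩)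

theorem bd_grow (G : SimpleGraph V) (A S : Finset V) (u v : V) (hu : u ∈ A) (hv : v ∉ A)
    (h : G.Adj u v) : bd G A S + (if (u ∈ S ↔ v ∈ S) then 0 else 1) ≤ bd G (insert v A) S := by
  classical
  unfold bd
  have hsub : {p : V × V | p.1 ∈ A ∧ p.2 ∈ A ∧ p.1 ∈ S ∧ p.2 ∉ S ∧ G.Adj p.1 p.2} ⊆
      {p : V × V | p.1 ∈ insert v A ∧ p.2 ∈ insert v A ∧ p.1 ∈ S ∧ p.2 ∉ S ∧ G.Adj p.1 p.2} := by
    rintro ⟨a, b⟩ ⟨h1, h2, h3⟩
    exact ⟨Finset.mem_insert_of_mem h1, Finset.mem_insert_of_mem h2, h3⟩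
  split_ifs with huv
  · exact Set.ncard_le_ncard hsub (bd_finite G _ S)
  · obtain ⟨q, hq1, hq2⟩ : ∃ q : V × V, q ∉ {p : V × V | p.1 ∈ A ∧ p.2 ∈ A ∧ p.1 ∈ S ∧ p.2 ∉ S ∧
        G.Adj p.1 p.2} ∧ q ∈ {p : V × V | p.1 ∈ insert v A ∧ p.2 ∈ insert v A ∧ p.1 ∈ S ∧ p.2 ∉ S ∧
        G.Adj p.1 p.2} := by
      by_cases a : u ∈ S
      · have b : v ∉ S := fun b => huv ⟨fun _ => b, fun _ => a⟩
        exact ⟨(u, v), fun h' => hv h'.2.1, Finset.mem_insert_of_mem hu,
          Finset.mem_insert_self _ _, a, b, h⟩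
      · have b : v ∈ S := by
          by_contra b
          exact huv ⟨fun h' => absurd h' a, fun h' => absurd h' b⟩
        exact ⟨(v, u), fun h' => hv h'.1, Finset.mem_insert_self _ _,
          Finset.mem_insert_of_mem hu, b, a, h.symm⟩
    rw [← Set.ncard_insert_of_notMem hq1 (bd_finite G A S)]
    refine Set.ncard_le_ncard ?_ (bd_finite G _ S)
    exact Set.insert_subset hq2 hsub

theorem exists_list {n : ℕ} (G : SimpleGraph (Fin n)) (hG : G.Connected) :
    ∀ k, 1 ≤ k → k ≤ n → ∃ l : List (Fin n), l.Nodup ∧ l.length = k ∧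
      ∀ S : Finset (Fin n), sep S l ≤ 2 * bd G l.toFinset S := by
  classical
  intro k hk
  induction k, hk using Nat.le_induction with
  | base =>
    intro _
    obtain ⟨v⟩ := hG.nonempty
    exact ⟨[v], by simp, by simp, fun S => by simp [sep]⟩
  | succ k hk ih =>
    intro hkn
    obtain ⟨l, h1, h2, h3⟩ := ih (by omega)
    have hne : l ≠ [] := by rintro rfl; simp at h2; omega
    obtain ⟨a, ha⟩ := List.exists_mem_of_ne_nil l hne
    obtain ⟨b, hb⟩ : ∃ b, b ∉ l := by
      by_contra hcon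
      push Not at hcon
      have : (univ : Finset (Fin n)) ⊆ l.toFinset := fun x _ => List.mem_toFinset.mpr (hcon x)
      have h4 := Finset.card_le_card this
      rw [List.toFinset_card_of_nodup h1, Finset.card_univ, Fintype.card_fin] at h4
      omega
    obtain ⟨p⟩ := hG.preconnected a b
    obtain ⟨d, -, hd1, hd2⟩ := p.exists_boundary_dart {x | x ∈ l} ha hb
    set u := d.fst with hu
    set v := d.snd with hv
    have hadj : G.Adj u v := d.adj
    have hul : u ∈ l := hd1
    have hvl : v ∉ l := hd2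
    obtain ⟨l1, l2, hl⟩ := List.append_of_mem hul
    have hperm : (l1 ++ u :: v :: l2).Perm (v :: l) := by
      rw [hl]
      have e1 : l1 ++ u :: v :: l2 = (l1 ++ [u]) ++ v :: l2 := by simp
      have e2 : l1 ++ u :: l2 = (l1 ++ [u]) ++ l2 := by simp
      rw [e1, e2]
      exact List.perm_middle
    refine ⟨l1 ++ u :: v :: l2, ?_, ?_, fun S => ?_⟩
    · rw [hperm.nodup_iff]
      exact List.nodup_cons.mpr ⟨hvl, h1⟩
    · rw [hperm.length_eq, List.length_cons, h2]
    · have e3 : (l1 ++ u :: v :: l2).toFinset = insert v l.toFinset := by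
        rw [List.toFinset_eq_of_perm _ _ hperm, List.toFinset_cons]
      rw [e3]
      have e4 := sep_insert S u v l2 l1
      rw [← hl] at e4
      have e5 := bd_grow G l.toFinset S u v (List.mem_toFinset.mpr hul)
        (fun h => hvl (List.mem_toFinset.mp h)) hadj
      have e6 := h3 S
      split_ifs at e4 e5 <;> omega

/-- the number of the edges of `G` with exactly one end in `S` -/
noncomputable def boundary {n : ℕ} (G : SimpleGraph (Fin n)) (S : Finset (Fin n)) : ℕ :=
  {p : Fin n × Fin n | p.1 ∈ S ∧ p.2 ∉ S ∧ G.Adj p.1 p.2}.ncard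

theorem exists_order {n : ℕ} (G : SimpleGraph (Fin n)) (hG : G.Connected) :
    ∃ e : Fin n ≃ Fin n, ∀ S : Finset (Fin n),
      changes (univ.filter (fun i => e i ∈ S)) ≤ 2 * boundary G S := by
  classical
  obtain ⟨v0⟩ := hG.nonempty
  have hn : 1 ≤ n := by have := v0.2; omega
  obtain ⟨l, h1, h2, h3⟩ := exists_list G hG n hn le_rfl
  have hinj : Function.Injective (fun i : Fin n => l.get (i.cast h2.symm)) := by
    intro a b hab
    have := List.nodup_iff_injective_get.mp h1 hab
    exact Fin.ext (by simpa using congrArg Fin.val this)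
  set e : Fin n ≃ Fin n := Equiv.ofBijective _ (Finite.injective_iff_bijective.mp hinj) with he
  have hel : ∀ i : Fin n, e i = l.getD i v0 := by
    intro i
    rw [he]
    simp only [Equiv.ofBijective_apply]
    rw [List.getD_eq_getElem _ _ (by rw [h2]; exact i.2)]
    rfl
  refine ⟨e, fun S => ?_⟩
  have hb : bd G l.toFinset S = boundary G S := by
    unfold bd boundary
    congr 1
    ext p
    have hall : ∀ x, x ∈ l.toFinset := by
      have : l.toFinset = univ := by
        apply Finset.eq_univ_of_card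
        rw [List.toFinset_card_of_nodup h1, h2, Fintype.card_fin]
      intro x
      rw [this]
      exact Finset.mem_univ _
    simp only [Set.mem_ofPred_eq]
    exact ⟨fun h => ⟨h.2.2.1, h.2.2.2.1, h.2.2.2.2⟩, fun h => ⟨hall _, hall _, h.1, h.2.1, h.2.2⟩⟩
  rw [← hb]
  refine le_trans ?_ (h3 S)
  rw [sep_eq S v0, h2]
  unfold changes
  rw [Finset.sum_ite, Finset.sum_const_zero, zero_add, Finset.sum_const, smul_eq_mul, mul_one]
  rw [Set.ncard_eq_toFinset_card']
  refine Finset.card_le_card_of_injOn (fun i : Fin n => (i : ℕ)) (fun i hi => ?_) ?_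
  · simp only [Set.coe_toFinset, Set.mem_ofPred_eq, Finset.mem_filter, Finset.mem_univ,
      true_and] at hi
    obtain ⟨h, hi⟩ := hi
    refine Finset.mem_coe.mpr (Finset.mem_filter.mpr
      ⟨Finset.mem_range.mpr (show (i : ℕ) < n - 1 by omega), ?_⟩)
    rw [hel, hel] at hi
    exact hi
  · intro a _ b _ hab
    exact Fin.ext hab

theorem main_graph (κ : ℝ) (hκ : 0 < κ) (h9 : κ < 1 / 9) :
    ∃ C : ℝ, 0 < C ∧ ∀ (n m t : ℕ) (S : Fin m → Finset (Fin n)), 1 ≤ t →
      (∀ i : Fin n, (univ.filter (fun j : Fin m => i ∈ S j)).card ≤ t) →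
      ∀ G : SimpleGraph (Fin n), G.Connected →
      ∃ χ : Fin n → ℤ, (∀ i, χ i = 1 ∨ χ i = -1) ∧
        (∀ j : Fin m, ((|∑ i ∈ S j, χ i| : ℤ) : ℝ) ≤
          C * (Real.sqrt t + Real.sqrt (boundary G (S j)) +
            (boundary G (S j)) * Real.exp (-((t : ℝ) ^ κ)))) := by
  classical
  obtain ⟨C, hC, hc⟩ := main_order κ hκ h9
  refine ⟨2 * C, by positivity, fun n m t S ht hdeg G hG => ?_⟩
  obtain ⟨e, he⟩ := exists_order G hG
  obtain ⟨χ, h1, h2, -⟩ := hc n m t (fun j => univ.filter (fun i => e i ∈ S j)) ht (by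
    intro i
    refine le_trans (le_of_eq ?_) (hdeg (e i))
    congr 1
    ext j
    simp)
  refine ⟨fun v => χ (e.symm v), fun v => h1 _, fun j => ?_⟩
  have e1 : ∑ i ∈ S j, χ (e.symm i) = ∑ i ∈ univ.filter (fun i => e i ∈ S j), χ i := by
    refine Finset.sum_bij' (fun v _ => e.symm v) (fun i _ => e i) ?_ ?_ ?_ ?_ ?_
    · intro v hv; simp [hv]
    · intro i hi; simpa using hi
    · intro v _; simp
    · intro i _; simp
    · intro v _; rfl
  rw [e1]
  refine (h2 j).trans ?_
  set c := changes (univ.filter (fun i => e i ∈ S j)) with hcdef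
  have hcb : (c : ℝ) ≤ 2 * boundary G (S j) := by exact_mod_cast he (S j)
  have hb0 : (0 : ℝ) ≤ boundary G (S j) := Nat.cast_nonneg _
  have h4 : Real.sqrt c ≤ 2 * Real.sqrt (boundary G (S j)) := by
    apply Real.sqrt_le_iff.mpr
    refine ⟨by positivity, ?_⟩
    rw [mul_pow, Real.sq_sqrt hb0]
    linarith
  have h5 : (c : ℝ) * Real.exp (-((t : ℝ) ^ κ)) ≤
      2 * ((boundary G (S j)) * Real.exp (-((t : ℝ) ^ κ))) := by
    rw [← mul_assoc]
    exact mul_le_mul_of_nonneg_right hcb (Real.exp_pos _).le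
  have h6 := Real.sqrt_nonneg (t : ℝ)
  nlinarith

end Pool.Agent.J4.H77.BD
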