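import Pool.Agent.J4.H77.BD.Pair

set_option autoImplicit false

/-! Beck–Fiala with the number of changes along a linear order. -/

namespace Pool.Agent.J4.H77.BD

open Finset

/-- the number of `i` such that exactly one of `i`, `i + 1` is in `S` -/
noncomputable def changes {n : ℕ} (S : Finset (Fin n)) : ℕ :=
  {i : Fin n | ∃ h : (i : ℕ) + 1 < n, ¬ (i ∈ S ↔ (⟨i + 1, h⟩ : Fin n) ∈ S)}.ncard

/-- the partner of `i` -/
def ptn {n : ℕ} (i : Fin n) : Fin n :=
  if i.val % 2 = 1 then ⟨i.val - 1, by omega⟩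
  else if h : i.val + 1 < n then ⟨i.val + 1, h⟩ else i

theorem ptn_inv {n : ℕ} : Function.Involutive (ptn : Fin n → Fin n) := by
  intro i
  apply Fin.ext
  unfold ptn
  split_ifs <;> simp_all <;> omega

theorem cut_le {n : ℕ} (S : Finset (Fin n)) : cut ptn S ≤ changes S + 1 := by
  classical
  have h1 : S.filter (fun i => ptn i ∉ S ∨ ptn i = i) ⊆
      S.filter (fun i => ptn i ∉ S) ∪ S.filter (fun i => ptn i = i) := by
    intro i hi
    rw [Finset.mem_filter] at hi
    rcases hi.2 with h | h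
    · exact Finset.mem_union_left _ (Finset.mem_filter.mpr ⟨hi.1, h⟩)
    · exact Finset.mem_union_right _ (Finset.mem_filter.mpr ⟨hi.1, h⟩)
  have h2 : (S.filter (fun i => ptn i = i)).card ≤ 1 := by
    rw [Finset.card_le_one]
    intro a ha b hb
    have h3 := (Finset.mem_filter.mp ha).2
    have h4 := (Finset.mem_filter.mp hb).2
    have h5 := congrArg Fin.val h3
    have h6 := congrArg Fin.val h4
    have ha2 := a.2
    have hb2 := b.2
    apply Fin.ext
    unfold ptn at h5 h6
    split_ifs at h5 h6 <;> simp at h5 h6 <;> omega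
  have h3 : (S.filter (fun i => ptn i ∉ S)).card ≤ changes S := by
    unfold changes
    rw [Set.ncard_eq_toFinset_card' ]
    refine Finset.card_le_card_of_injOn
      (fun i => if i.val % 2 = 1 then ptn i else i) (fun i hi => ?_) ?_
    · have hi1 := (Finset.mem_filter.mp hi).1
      have hi2 := (Finset.mem_filter.mp hi).2
      simp only [Set.coe_toFinset, Set.mem_ofPred_eq]
      by_cases h : i.val % 2 = 1
      · rw [if_pos h]
        have e : (ptn i).val = i.val - 1 := by unfold ptn; rw [if_pos h]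
        refine ⟨by omega, ?_⟩
        have e2 : (⟨(ptn i).val + 1, by omega⟩ : Fin n) = i := Fin.ext (by simp only; omega)
        rw [e2]
        tauto
      · rw [if_neg h]
        have hlt : i.val + 1 < n := by
          by_contra hc
          have : ptn i = i := by unfold ptn; rw [if_neg h, dif_neg hc]
          rw [this] at hi2
          exact hi2 hi1
        refine ⟨hlt, ?_⟩
        have e : ptn i = ⟨i.val + 1, hlt⟩ := by unfold ptn; rw [if_neg h, dif_pos hlt]
        rw [← e]
        tauto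
    · intro a ha b hb hab
      have ha1 := (Finset.mem_filter.mp ha).1
      have ha2 := (Finset.mem_filter.mp ha).2
      have hb1 := (Finset.mem_filter.mp hb).1
      have hb2 := (Finset.mem_filter.mp hb).2
      simp only at hab
      by_cases h1 : a.val % 2 = 1 <;> by_cases h2 : b.val % 2 = 1
      · rw [if_pos h1, if_pos h2] at hab
        exact ptn_inv.injective hab
      · rw [if_pos h1, if_neg h2] at hab
        rw [hab] at ha2
        exact absurd hb1 ha2
      · rw [if_neg h1, if_pos h2] at hab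
        rw [← hab] at hb2
        exact absurd ha1 hb2
      · rw [if_neg h1, if_neg h2] at hab
        exact hab
  have h4 := (Finset.card_le_card h1).trans (Finset.card_union_le _ _)
  unfold cut
  omega

theorem prefix_le {n : ℕ} (χ : Fin n → ℤ) (h1 : ∀ i, χ i = 1 ∨ χ i = -1)
    (h2 : ∀ i, ptn i ≠ i → χ (ptn i) = - χ i) (c : ℕ) :
    |∑ i ∈ univ.filter (fun i : Fin n => (i : ℕ) < c), χ i| ≤ 1 := by
  classical
  set f : ℕ → ℤ := fun k => if h : k < n then χ ⟨k, h⟩ else 0 with hf
  have e1 : ∑ i ∈ univ.filter (fun i : Fin n => (i : ℕ) < c), χ i =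
      ∑ k ∈ range (min c n), f k := by
    rw [Finset.sum_filter]
    have : ∑ i : Fin n, (if (i : ℕ) < c then χ i else 0) =
        ∑ i : Fin n, (fun k : ℕ => if k < c then f k else 0) (i : ℕ) := by
      refine Finset.sum_congr rfl fun i _ => ?_
      simp only [hf]
      have := i.2
      simp [this]
    rw [this, Fin.sum_univ_eq_sum_range (fun k : ℕ => if k < c then f k else 0), ← Finset.sum_filter]
    refine Finset.sum_congr ?_ fun _ _ => rfl
    ext k
    simp only [Finset.mem_filter, Finset.mem_range, lt_min_iff]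
    tauto
  have e2 : ∀ N, 2 * N ≤ n → ∑ k ∈ range (2 * N), f k = 0 := by
    intro N
    induction N with
    | zero => intro _; simp
    | succ N ih =>
      intro hN
      rw [show 2 * (N + 1) = 2 * N + 1 + 1 by ring, sum_range_succ, sum_range_succ, ih (by omega)]
      have a1 : 2 * N < n := by omega
      have a2 : 2 * N + 1 < n := by omega
      simp only [hf, dif_pos a1, dif_pos a2, zero_add]
      have a3 : ptn (⟨2 * N, a1⟩ : Fin n) = ⟨2 * N + 1, a2⟩ := by
        unfold ptn
        rw [if_neg (by simp), dif_pos a2]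
      have a4 := h2 ⟨2 * N, a1⟩ (by rw [a3]; intro h; have := congrArg Fin.val h; simp at this)
      rw [a3] at a4
      rw [a4]
      ring
  rw [e1]
  have hmn : min c n ≤ n := min_le_right _ _
  rcases Nat.even_or_odd' (min c n) with ⟨N, h | h⟩
  · rw [h, e2 N (by omega)]; simp
  · have a1 : 2 * N < n := by omega
    rw [h, sum_range_succ, e2 N (by omega), zero_add]
    simp only [hf, dif_pos a1]
    rcases h1 ⟨2 * N, a1⟩ with h | h <;> rw [h] <;> simp

/-- absorbing the additional element -/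
theorem absorb (C T : ℝ) (hC : 0 < C) (t b c : ℕ) (ht : 1 ≤ t) (hT : 0 ≤ T) (h : c ≤ b + 1) :
    C * (Real.sqrt t + Real.sqrt c + c * Real.exp (-T)) ≤
      (3 * C) * (Real.sqrt t + Real.sqrt b + b * Real.exp (-T)) := by
  have hcr : (c : ℝ) ≤ b + 1 := by exact_mod_cast h
  have htr : (1 : ℝ) ≤ t := by exact_mod_cast ht
  have hsq : (1 : ℝ) ≤ Real.sqrt t := by
    rw [Real.one_le_sqrt]; exact htr
  have hb0 : (0 : ℝ) ≤ b := Nat.cast_nonneg _
  have hsb := Real.sqrt_nonneg (b : ℝ)
  have h1 : Real.sqrt c ≤ Real.sqrt b + 1 := by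
    apply Real.sqrt_le_iff.mpr
    refine ⟨by positivity, ?_⟩
    nlinarith [Real.sq_sqrt hb0]
  have he0 : 0 ≤ Real.exp (-T) := (Real.exp_pos _).le
  have he1 : Real.exp (-T) ≤ 1 := Real.exp_le_one_iff.mpr (by linarith)
  have h2 : (c : ℝ) * Real.exp (-T) ≤ b * Real.exp (-T) + 1 := by
    have := mul_le_mul_of_nonneg_right hcr he0
    nlinarith
  have h3 : 0 ≤ (b : ℝ) * Real.exp (-T) := by positivity
  nlinarith

theorem main_order (κ : ℝ) (hκ : 0 < κ) (h9 : κ < 1 / 9) :
    ∃ C : ℝ, 0 < C ∧ ∀ (n m t : ℕ) (S : Fin m → Finset (Fin n)), 1 ≤ t →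
      (∀ i : Fin n, (univ.filter (fun j : Fin m => i ∈ S j)).card ≤ t) →
      ∃ χ : Fin n → ℤ, (∀ i, χ i = 1 ∨ χ i = -1) ∧
        (∀ j : Fin m, ((|∑ i ∈ S j, χ i| : ℤ) : ℝ) ≤
          C * (Real.sqrt t + Real.sqrt (changes (S j)) +
            (changes (S j)) * Real.exp (-((t : ℝ) ^ κ)))) ∧
        ∀ c : ℕ, |∑ i ∈ univ.filter (fun i : Fin n => (i : ℕ) < c), χ i| ≤ 1 := by
  obtain ⟨C, hC, hc⟩ := main_pair κ hκ h9
  refine ⟨3 * C, by positivity, fun n m t S ht hdeg => ?_⟩
  obtain ⟨χ, h1, h2, h3⟩ := hc n m t S ht hdeg ptn ptn_inv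
  refine ⟨χ, h1, fun j => (h3 j).trans ?_, prefix_le χ h1 h2⟩
  exact absorb C _ hC t _ _ ht (Real.rpow_nonneg (Nat.cast_nonneg _) _) (cut_le (S j))

end Pool.Agent.J4.H77.BD
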