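import Mathlib
import Pool.Agent.Results.MP_e8ee11_co.LongSets

set_option autoImplicit false

/-! Beck–Fiala with the number of cut pairs of a partial matching instead of the size of the sets. -/

namespace Pool.Agent.J4.H77.BD

open Finset

/-- the number of the elements of `S` whose partner is not in `S`, or which are their own partner -/
def cut {n : ℕ} (φ : Fin n → Fin n) (S : Finset (Fin n)) : ℕ :=
  (S.filter (fun i => φ i ∉ S ∨ φ i = i)).card

def PS {n : ℕ} (φ : Fin n → Fin n) (S : Finset (Fin n)) : Finset (Fin n) :=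
  univ.filter (fun i => i ≤ φ i ∧ i ∈ S ∧ (φ i ∉ S ∨ φ i = i))

def NS {n : ℕ} (φ : Fin n → Fin n) (S : Finset (Fin n)) : Finset (Fin n) :=
  univ.filter (fun i => i < φ i ∧ i ∉ S ∧ φ i ∈ S)

def col {n : ℕ} (φ : Fin n → Fin n) (ψ : Fin n → ℤ) (i : Fin n) : ℤ :=
  if i ≤ φ i then ψ i else - ψ (φ i)

theorem col_sum {n : ℕ} (φ : Fin n → Fin n) (hφ : Function.Involutive φ) (ψ : Fin n → ℤ)
    (S : Finset (Fin n)) :
    ∑ i ∈ S, col φ ψ i = ∑ i ∈ PS φ S, ψ i - ∑ i ∈ NS φ S, ψ i := by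
  classical
  have h1 : ∑ i ∈ S, col φ ψ i = ∑ i, (if i ∈ S ∧ i ≤ φ i then ψ i else 0) -
      ∑ i, (if i ∈ S ∧ φ i < i then ψ (φ i) else 0) := by
    rw [← Finset.sum_sub_distrib]
    rw [← Finset.sum_filter_add_sum_filter_not univ (fun i => i ∈ S)]
    have e1 : (univ.filter (fun i => i ∈ S)) = S := by ext i; simp
    rw [e1]
    have e2 : ∑ x ∈ univ.filter (fun x => ¬ x ∈ S),
        ((if x ∈ S ∧ x ≤ φ x then ψ x else 0) - (if x ∈ S ∧ φ x < x then ψ (φ x) else 0)) = 0 := by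
      refine Finset.sum_eq_zero fun x hx => ?_
      have : x ∉ S := (Finset.mem_filter.mp hx).2
      simp [this]
    rw [e2, add_zero]
    refine Finset.sum_congr rfl fun x hx => ?_
    unfold col
    by_cases h : x ≤ φ x
    · simp [hx, h, not_lt.mpr h]
    · simp [hx, h, not_le.mp h]
  have h2 : ∑ i, (if i ∈ S ∧ φ i < i then ψ (φ i) else 0) =
      ∑ j, (if φ j ∈ S ∧ j < φ j then ψ j else 0) := by
    have := Equiv.sum_comp (Function.Involutive.toPerm φ hφ)
      (fun i => if i ∈ S ∧ φ i < i then ψ (φ i) else 0)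
    rw [← this]
    refine Finset.sum_congr rfl fun j _ => ?_
    simp [hφ j]
  have h3 : ∑ i ∈ PS φ S, ψ i = ∑ i, (if i ≤ φ i ∧ i ∈ S ∧ (φ i ∉ S ∨ φ i = i) then ψ i else 0) := by
    rw [PS, Finset.sum_filter]
  have h4 : ∑ i ∈ NS φ S, ψ i = ∑ i, (if i < φ i ∧ i ∉ S ∧ φ i ∈ S then ψ i else 0) := by
    rw [NS, Finset.sum_filter]
  rw [h1, h2, h3, h4, ← Finset.sum_sub_distrib, ← Finset.sum_sub_distrib]
  refine Finset.sum_congr rfl fun j _ => ?_
  rcases lt_trichotomy j (φ j) with h | h | h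
  · have h5 : φ j ≠ j := h.ne'
    by_cases a : j ∈ S <;> by_cases b : φ j ∈ S <;> simp [h, h.le, h5, a, b]
  · have h5 : φ j = j := h.symm
    rw [h5]
    by_cases a : j ∈ S <;> simp [a]
  · have h5 : ¬ j ≤ φ j := not_le.mpr h
    have h6 : ¬ j < φ j := not_lt.mpr h.le
    simp [h5, h6]

theorem PS_card {n : ℕ} (φ : Fin n → Fin n) (S : Finset (Fin n)) : (PS φ S).card ≤ cut φ S := by
  classical
  refine Finset.card_le_card fun i hi => ?_
  have := (Finset.mem_filter.mp hi).2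
  exact Finset.mem_filter.mpr ⟨this.2.1, this.2.2⟩

theorem NS_card {n : ℕ} (φ : Fin n → Fin n) (hφ : Function.Involutive φ) (S : Finset (Fin n)) :
    (NS φ S).card ≤ cut φ S := by
  classical
  refine Finset.card_le_card_of_injOn φ (fun i hi => ?_) (hφ.injective.injOn)
  have := (Finset.mem_filter.mp hi).2
  refine Finset.mem_filter.mpr ⟨this.2.2, Or.inl ?_⟩
  rw [hφ i]
  exact this.2.1

/-- Beck–Fiala for a partial matching -/
theorem main_pair (κ : ℝ) (hκ : 0 < κ) (h9 : κ < 1 / 9) :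
    ∃ C : ℝ, 0 < C ∧ ∀ (n m t : ℕ) (S : Fin m → Finset (Fin n)), 1 ≤ t →
      (∀ i : Fin n, (univ.filter (fun j : Fin m => i ∈ S j)).card ≤ t) →
      ∀ φ : Fin n → Fin n, Function.Involutive φ →
      ∃ χ : Fin n → ℤ, (∀ i, χ i = 1 ∨ χ i = -1) ∧ (∀ i, φ i ≠ i → χ (φ i) = - χ i) ∧
        (∀ j : Fin m, ((|∑ i ∈ S j, χ i| : ℤ) : ℝ) ≤
          C * (Real.sqrt t + Real.sqrt (cut φ (S j)) +
            (cut φ (S j)) * Real.exp (-((t : ℝ) ^ κ)))) := by
  classical
  obtain ⟨C, hC, hc⟩ := Pool.Agent.Results.MP_e8ee11_co.LongSets.result κ hκ h9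
  refine ⟨2 * (C * 2), by positivity, fun n m t S ht hdeg φ hφ => ?_⟩
  let Q : Fin (m + m) → Finset (Fin n) := fun w =>
    Sum.elim (fun j => PS φ (S j)) (fun j => NS φ (S j)) (finSumFinEquiv.symm w)
  have hdegQ : ∀ i : Fin n, (univ.filter (fun w : Fin (m + m) => i ∈ Q w)).card ≤ 2 * t := by
    intro i
    have h1 : (univ.filter (fun w : Fin (m + m) => i ∈ Q w)).card =
        (univ.filter (fun w : Fin m ⊕ Fin m => i ∈ Sum.elim (fun j => PS φ (S j))
          (fun j => NS φ (S j)) w)).card := by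
      refine Finset.card_bij (fun w _ => finSumFinEquiv.symm w) ?_ ?_ ?_
      · intro w hw
        have := (Finset.mem_filter.mp hw).2
        exact Finset.mem_filter.mpr ⟨Finset.mem_univ _, this⟩
      · intro a _ b _ hab
        exact finSumFinEquiv.symm.injective hab
      · intro b hb
        refine ⟨finSumFinEquiv b, ?_, by simp⟩
        have := (Finset.mem_filter.mp hb).2
        refine Finset.mem_filter.mpr ⟨Finset.mem_univ _, ?_⟩
        simp only [Q, Equiv.symm_apply_apply]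
        exact this
    rw [h1]
    have h2 : (univ.filter (fun w : Fin m ⊕ Fin m => i ∈ Sum.elim (fun j => PS φ (S j))
          (fun j => NS φ (S j)) w)) ⊆
        ((univ.filter (fun j : Fin m => i ∈ S j)).image Sum.inl) ∪
        ((univ.filter (fun j : Fin m => φ i ∈ S j)).image Sum.inr) := by
      intro w hw
      have h3 := (Finset.mem_filter.mp hw).2
      rcases w with j | j
      · simp only [Sum.elim_inl] at h3
        have h4 := (Finset.mem_filter.mp h3).2
        refine Finset.mem_union_left _ (Finset.mem_image.mpr ⟨j, ?_, rfl⟩)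
        exact Finset.mem_filter.mpr ⟨Finset.mem_univ _, h4.2.1⟩
      · simp only [Sum.elim_inr] at h3
        have h4 := (Finset.mem_filter.mp h3).2
        refine Finset.mem_union_right _ (Finset.mem_image.mpr ⟨j, ?_, rfl⟩)
        exact Finset.mem_filter.mpr ⟨Finset.mem_univ _, h4.2.2⟩
    refine (Finset.card_le_card h2).trans ((Finset.card_union_le _ _).trans ?_)
    have h5 : ((univ.filter (fun j : Fin m => i ∈ S j)).image
        (Sum.inl : Fin m → Fin m ⊕ Fin m)).card ≤ t := Finset.card_image_le.trans (hdeg i)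
    have h6 : ((univ.filter (fun j : Fin m => φ i ∈ S j)).image
        (Sum.inr : Fin m → Fin m ⊕ Fin m)).card ≤ t := Finset.card_image_le.trans (hdeg (φ i))
    omega
  obtain ⟨ψ, hψ1, hψ2, -⟩ := hc n (m + m) (2 * t) Q (by omega) hdegQ
  refine ⟨col φ ψ, fun i => ?_, fun i hi => ?_, fun j => ?_⟩
  · unfold col
    split_ifs
    · exact hψ1 i
    · rcases hψ1 (φ i) with h | h <;> rw [h] <;> simp
  · unfold col
    rcases lt_or_gt_of_ne hi with h | h
    · -- φ i < i
      have h1 : φ i ≤ φ (φ i) := by rw [hφ i]; exact h.le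
      have h2 : ¬ i ≤ φ i := not_le.mpr h
      rw [if_pos h1, if_neg h2, neg_neg]
    · have h1 : ¬ φ i ≤ φ (φ i) := by rw [hφ i]; exact not_le.mpr h
      rw [if_neg h1, if_pos (show i ≤ φ i from le_of_lt h), hφ i]
  · have e1 := hψ2 (finSumFinEquiv (Sum.inl j))
    have e2 := hψ2 (finSumFinEquiv (Sum.inr j))
    simp only [Q, Equiv.symm_apply_apply, Sum.elim_inl, Sum.elim_inr] at e1 e2
    have htr : (1 : ℝ) ≤ t := by exact_mod_cast ht
    have hT : Real.exp (-(((2 * t : ℕ) : ℝ) ^ κ)) ≤ Real.exp (-((t : ℝ) ^ κ)) := by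
      apply Real.exp_le_exp.mpr
      apply neg_le_neg
      apply Real.rpow_le_rpow (by positivity) _ hκ.le
      push_cast
      linarith
    have hsq : Real.sqrt ((2 * t : ℕ) : ℝ) ≤ 2 * Real.sqrt t := by
      apply Real.sqrt_le_iff.mpr
      refine ⟨by positivity, ?_⟩
      rw [mul_pow, Real.sq_sqrt (by positivity)]
      push_cast
      linarith
    have key : ∀ q : ℕ, q ≤ cut φ (S j) →
        C * (Real.sqrt ((2 * t : ℕ) : ℝ) + Real.sqrt q + q * Real.exp (-(((2 * t : ℕ) : ℝ) ^ κ))) ≤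
        (C * 2) * (Real.sqrt t + Real.sqrt (cut φ (S j)) +
            (cut φ (S j)) * Real.exp (-((t : ℝ) ^ κ))) := by
      intro q hq
      have hqr : (q : ℝ) ≤ cut φ (S j) := by exact_mod_cast hq
      have h1 : Real.sqrt q ≤ Real.sqrt (cut φ (S j)) := Real.sqrt_le_sqrt hqr
      have h2 : (q : ℝ) * Real.exp (-(((2 * t : ℕ) : ℝ) ^ κ)) ≤
          (cut φ (S j)) * Real.exp (-((t : ℝ) ^ κ)) :=
        mul_le_mul hqr hT (Real.exp_pos _).le (by positivity)
      have h3 : 0 ≤ Real.sqrt (cut φ (S j)) := Real.sqrt_nonneg _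
      have h4 : 0 ≤ ((cut φ (S j) : ℕ) : ℝ) * Real.exp (-((t : ℝ) ^ κ)) := by positivity
      rw [mul_assoc]
      refine mul_le_mul_of_nonneg_left ?_ hC.le
      linarith
    have e3 := e1.trans (key _ (PS_card φ (S j)))
    have e4 := e2.trans (key _ (NS_card φ hφ (S j)))
    rw [col_sum φ hφ]
    have e5 : ((|∑ i ∈ PS φ (S j), ψ i - ∑ i ∈ NS φ (S j), ψ i| : ℤ) : ℝ) ≤
        ((|∑ i ∈ PS φ (S j), ψ i| : ℤ) : ℝ) + ((|∑ i ∈ NS φ (S j), ψ i| : ℤ) : ℝ) := by
      have := abs_sub (∑ i ∈ PS φ (S j), ψ i) (∑ i ∈ NS φ (S j), ψ i)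
      exact_mod_cast this
    linarith

end Pool.Agent.J4.H77.BD
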